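import Mathlib

/-!
MP_ef7f46_co: the abstract container algorithm (combinatorial part of AT).
-/

set_option autoImplicit false
open Classical

namespace EpsNet.AT0

variable {I : Type} [Fintype I]

/-- lists built by successive choices of candidates -/
def Valid (H : Finset I → List I → Finset I) (C : Finset I) : List I → Prop
  | [] => True
  | u :: l => u ∈ H C l ∧ Valid H C l

/-- one step of the decoder; `none` = skip, `some none` = next stage, `some (some u)` = add `u` -/
noncomputable def step (V : Finset I) (H : Finset I → List I → Finset I)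
    (c : Option (Option {x // x ∈ V})) (st : Finset I × List I) : Finset I × List I :=
  match c with
  | none => st
  | some none => (st.1 \ H st.1 st.2, [])
  | some (some u) => (st.1, (u : I) :: st.2)

noncomputable def dec (V : Finset I) (H : Finset I → List I → Finset I)
    (c : List (Option (Option {x // x ∈ V}))) : Finset I × List I :=
  c.foldr (step V H) (V, [])

theorem dec_skip (V : Finset I) (H : Finset I → List I → Finset I)
    (c : List (Option (Option {x // x ∈ V}))) (n : ℕ) :
    dec V H (List.replicate n none ++ c) = dec V H c := by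
  induction n with
  | zero => simp
  | succ n ih =>
    rw [List.replicate_succ, List.cons_append]
    change step V H none (dec V H (List.replicate n none ++ c)) = _
    rw [ih]; rfl

/-- invariants of a running state -/
structure Inv (V : Finset I) (H : Finset I → List I → Finset I) (b h0 : ℝ) (A : Finset I)
    (n : ℕ) (C : Finset I) (l : List I) : Prop where
  C_sub : C ⊆ V
  C_big : 15 * V.card ≤ 16 * C.card
  A_sub : A ⊆ C
  valid : Valid H C l
  mem : ∀ u ∈ l, u ∈ A
  count : ∃ j : ℕ, (C.card : ℝ) ≤ V.card - j * h0 ∧ (n : ℝ) ≤ j * (b + 1) + l.length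

theorem main (V : Finset I) (H : Finset I → List I → Finset I) (b h0 : ℝ) (hb : 0 ≤ b)
    (hh : 0 < h0) (M : ℕ) (hM : (b + 1) * (V.card / (16 * h0) + 2) ≤ M) :
    ∃ F : Finset (Finset I), F.card ≤ (V.card + 2) ^ M ∧
      (∀ C ∈ F, C ⊆ V ∧ 16 * C.card ≤ 15 * V.card) ∧
      ∀ A ⊆ V, (∃ C ∈ F, A ⊆ C) ∨
        (∃ C l, C ⊆ V ∧ 15 * V.card ≤ 16 * C.card ∧ Valid H C l ∧ (∀ u ∈ l, u ∈ A) ∧
          ¬ ((l.length : ℝ) ≤ b ∧ h0 ≤ ((H C l).card : ℝ) ∧ H C l ⊆ C)) := by
  refine ⟨(Finset.univ.image (fun v : List.Vector (Option (Option {x // x ∈ V})) M =>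
    (dec V H v.toList).1)).filter (fun C => C ⊆ V ∧ 16 * C.card ≤ 15 * V.card), ?_, ?_, ?_⟩
  · refine (Finset.card_filter_le _ _).trans (Finset.card_image_le.trans ?_)
    rw [Finset.card_univ, card_vector]
    simp
  · intro C hC
    exact (Finset.mem_filter.1 hC).2
  · intro A hA
    by_contra hcon
    push Not at hcon
    obtain ⟨hcon1, hcon2⟩ := hcon
    have key : ∀ C l, C ⊆ V → 15 * V.card ≤ 16 * C.card → Valid H C l → (∀ u ∈ l, u ∈ A) →
        ((l.length : ℝ) ≤ b ∧ h0 ≤ ((H C l).card : ℝ) ∧ H C l ⊆ C) := by
      intro C l h1 h2 h3 h4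
      by_contra h5
      exact h5 ⟨(hcon2 C l h1 h2 h3 h4).1, (hcon2 C l h1 h2 h3 h4).2.1,
        (hcon2 C l h1 h2 h3 h4).2.2⟩
    have hfinal : ∀ c : List (Option (Option {x // x ∈ V})), c.length ≤ M →
        (dec V H c).1 ⊆ V → 16 * (dec V H c).1.card ≤ 15 * V.card → ¬ A ⊆ (dec V H c).1 := by
      intro c hc h1 h2 h3
      refine hcon1 (dec V H c).1 ?_ h3
      rw [Finset.mem_filter]
      refine ⟨?_, h1, h2⟩
      rw [Finset.mem_image]
      refine ⟨⟨List.replicate (M - c.length) none ++ c, ?_⟩, Finset.mem_univ _, ?_⟩
      · rw [List.length_append, List.length_replicate]; omega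
      · change (dec V H (List.replicate (M - c.length) none ++ c)).1 = _
        rw [dec_skip]
    have hrun : ∀ n ≤ M, ∃ c : List (Option (Option {x // x ∈ V})), c.length = n ∧
        Inv V H b h0 A n (dec V H c).1 (dec V H c).2 := by
      intro n
      induction n with
      | zero =>
        intro _
        refine ⟨[], rfl, ⟨subset_rfl, ?_, hA, trivial, ?_, 0, ?_, ?_⟩⟩
        · change 15 * V.card ≤ 16 * V.card; omega
        · intro u hu; cases hu
        · change (V.card : ℝ) ≤ V.card - (0 : ℕ) * h0
          simp
        · change ((0 : ℕ) : ℝ) ≤ (0 : ℕ) * (b + 1) + (([] : List I).length : ℕ)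
          simp
      | succ n ih =>
        intro hn
        obtain ⟨c, hc, hI⟩ := ih (by omega)
        obtain ⟨hl, hH, hHC⟩ := key _ _ hI.C_sub hI.C_big hI.valid hI.mem
        obtain ⟨j, hj1, hj2⟩ := hI.count
        by_cases hne : (A ∩ H (dec V H c).1 (dec V H c).2).Nonempty
        · obtain ⟨u, hu⟩ := hne
          rw [Finset.mem_inter] at hu
          refine ⟨some (some ⟨u, hA hu.1⟩) :: c, by simp [hc], ?_⟩
          change Inv V H b h0 A (n + 1) (dec V H c).1 (u :: (dec V H c).2)
          refine ⟨hI.C_sub, hI.C_big, hI.A_sub, ⟨hu.2, hI.valid⟩, ?_, j, hj1, ?_⟩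
          · intro w hw
            rcases List.mem_cons.1 hw with rfl | hw
            · exact hu.1
            · exact hI.mem w hw
          · rw [List.length_cons]; push_cast; linarith
        · rw [Finset.not_nonempty_iff_eq_empty] at hne
          have hdec : dec V H (some none :: c) =
            ((dec V H c).1 \ H (dec V H c).1 (dec V H c).2, []) := rfl
          have hsub : (dec V H c).1 \ H (dec V H c).1 (dec V H c).2 ⊆ V :=
            Finset.sdiff_subset.trans hI.C_sub
          have hAsub : A ⊆ (dec V H c).1 \ H (dec V H c).1 (dec V H c).2 := by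
            intro a ha
            rw [Finset.mem_sdiff]
            refine ⟨hI.A_sub ha, fun h => ?_⟩
            have : a ∈ A ∩ H (dec V H c).1 (dec V H c).2 := Finset.mem_inter.2 ⟨ha, h⟩
            rw [hne] at this
            simp at this
          have hcard : (((dec V H c).1 \ H (dec V H c).1 (dec V H c).2).card : ℝ) ≤
              (dec V H c).1.card - h0 := by
            have e := Finset.card_sdiff_add_card_eq_card hHC
            have e' : (((dec V H c).1 \ H (dec V H c).1 (dec V H c).2).card : ℝ) +
              ((H (dec V H c).1 (dec V H c).2).card : ℝ) = (dec V H c).1.card := by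
              exact_mod_cast e
            linarith
          refine ⟨some none :: c, by simp [hc], ?_⟩
          have hbig : 15 * V.card ≤ 16 * ((dec V H c).1 \ H (dec V H c).1 (dec V H c).2).card := by
            by_contra hlt
            refine hfinal (some none :: c) (by simp [hc]; omega) ?_ ?_ ?_
            · rw [hdec]; exact hsub
            · rw [hdec]
              simp only
              omega
            · rw [hdec]; exact hAsub
          rw [hdec]
          refine ⟨hsub, hbig, hAsub, trivial, ?_, j + 1, ?_, ?_⟩
          · intro u hu; cases hu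
          · push_cast; linarith
          · push_cast
            simp only [List.length_nil, Nat.cast_zero]
            linarith
    obtain ⟨c, hc, hI⟩ := hrun M le_rfl
    obtain ⟨hl, hH, hHC⟩ := key _ _ hI.C_sub hI.C_big hI.valid hI.mem
    obtain ⟨j, hj1, hj2⟩ := hI.count
    have hbig : (15 * V.card : ℝ) ≤ 16 * (dec V H c).1.card := by exact_mod_cast hI.C_big
    have hj : (j : ℝ) * h0 * 16 ≤ V.card := by linarith
    have hj' : (j : ℝ) ≤ V.card / (16 * h0) := by
      rw [le_div_iff₀ (by positivity)]; linarith
    have : (b + 1) * (V.card / (16 * h0) + 2) ≤ (V.card / (16 * h0)) * (b + 1) + b := by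
      have h1 : (j : ℝ) * (b + 1) ≤ (V.card / (16 * h0)) * (b + 1) :=
        mul_le_mul_of_nonneg_right hj' (by linarith)
      linarith
    nlinarith

end EpsNet.AT0
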