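import Pool.Agent.Work.MP_ef7f46_co.Basic
import Pool.Agent.Work.MP_ef7f46_co_helper84.AT0

/-!
MP_ef7f46_co: AT, the container theorem.
-/

set_option autoImplicit false
open Classical

namespace EpsNet.AT

open Ctx EpsNet.AT0

variable {P I : Type} [Fintype P] [Fintype I]

/-- the context with another container -/
def withC (X : Ctx P I) (C : Finset I) : Ctx P I := { X with C := C }

omit [Fintype P] [Fintype I] in
theorem withC_V (X : Ctx P I) (C : Finset I) : (withC X C).V = X.V := rfl

theorem hyp_withC {X : Ctx P I} {J σ Y : ℝ} (h : X.Hyp J σ Y) {C : Finset I} (h1 : C ⊆ X.V)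
    (h2 : 15 * X.V.card ≤ 16 * C.card) : (withC X C).Hyp J σ Y where
  main_card := h.main_card
  lin := h.lin
  pts_le := h.pts_le
  sig := h.sig
  inc_le := h.inc_le
  many := h.many
  half := h.half
  C_sub := h1
  C_big := h2
  r_pos := h.r_pos
  V_pos := h.V_pos
  k_pos := h.k_pos
  t_ge := h.t_ge
  J_pos := h.J_pos
  σ_pos := h.σ_pos
  β_ge := h.β_ge
  K_ge := h.K_ge
  K_sig := h.K_sig
  Y_pos := h.Y_pos
  Y_ge := h.Y_ge
  r_ge := h.r_ge
  β_big := h.β_big

/-- chosen stationary extension -/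
noncomputable def solve (X : Ctx P I) (T : Finset I) (g0 : I → ℝ) : I → ℝ :=
  if h : ∃ g : I → ℝ, (∀ i ∈ T, g i = g0 i) ∧ X.Stat T g then h.choose else g0

theorem solve_spec (h1 : Stmt_S1) {X : Ctx P I} {J σ Y : ℝ} (h : X.Hyp J σ Y) (T : Finset I)
    (g0 : I → ℝ) : (∀ i ∈ T, solve X T g0 i = g0 i) ∧ X.Stat T (solve X T g0) := by
  have hex := h1 P I X J σ Y h T g0
  unfold solve
  rw [dif_pos hex]
  exact hex.choose_spec

/-- the run of a stage -/
noncomputable def run (X : Ctx P I) : List I → Finset I × (I → ℝ)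
  | [] => (∅, solve X ∅ (fun _ => 0))
  | u :: l => (insert u (run X l).1, solve X (insert u (run X l).1) (run X l).2)

/-- the candidates -/
noncomputable def cand (X : Ctx P I) (C : Finset I) (l : List I) : Finset I :=
  (withC X C).H (run (withC X C) l).1 (run (withC X C) l).2

structure RunInv (X : Ctx P I) (Y : ℝ) (l : List I) (T : Finset I) (g : I → ℝ) : Prop where
  T_eq : T = l.toFinset
  T_sub : T ⊆ X.V
  T_card : T.card = l.length
  bd : ∀ i, 0 ≤ g i ∧ g i ≤ Y
  stat : X.Stat T g
  gain : (X.β - 1) * X.t / 4096 * l.length ≤ X.L T g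

theorem run_inv (h1 : Stmt_S1) (h5 : Stmt_S5) (h6 : Stmt_S6) (h11 : Stmt_S11)
    {X : Ctx P I} {J σ Y : ℝ} (h : X.Hyp J σ Y) (l : List I)
    (hl : Valid (fun C l => cand X C l) X.C l) :
    RunInv X Y l (run X l).1 (run X l).2 := by
  induction l with
  | nil =>
    have hs := solve_spec h1 h ∅ (fun _ => 0)
    have hb := h6 P I X J σ Y h ∅ (solve X ∅ (fun _ => 0)) (by simp) hs.2
    refine ⟨by simp [run], by simp [run], by simp [run], hb, hs.2, ?_⟩
    have := (h11 P I X J σ Y h ∅ (solve X ∅ (fun _ => 0)) hb hs.2).1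
    simpa [run] using this
  | cons u l ih =>
    obtain ⟨hu, hl'⟩ := hl
    have I0 := ih hl'
    have hu' : u ∈ X.H (run X l).1 (run X l).2 := hu
    rw [Ctx.H, Finset.mem_filter, Finset.mem_sdiff] at hu'
    obtain ⟨⟨huC, huT⟩, hul⟩ := hu'
    have huV : u ∈ X.V := h.C_sub huC
    have hs := solve_spec h1 h (insert u (run X l).1) (run X l).2
    have hb : ∀ i, 0 ≤ solve X (insert u (run X l).1) (run X l).2 i ∧
        solve X (insert u (run X l).1) (run X l).2 i ≤ Y := by
      refine h6 P I X J σ Y h (insert u (run X l).1) _ ?_ hs.2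
      intro i hi
      rw [hs.1 i hi]
      exact I0.bd i
    have hg := h5 P I X J σ Y h (run X l).1 (run X l).2
      (solve X (insert u (run X l).1) (run X l).2) u I0.bd I0.stat huV huT hs.1
    refine ⟨?_, ?_, ?_, hb, hs.2, ?_⟩
    · change insert u (run X l).1 = _
      rw [I0.T_eq, List.toFinset_cons]
    · change insert u (run X l).1 ⊆ _
      exact Finset.insert_subset huV I0.T_sub
    · change (insert u (run X l).1).card = _
      rw [Finset.card_insert_of_notMem huT, I0.T_card, List.length_cons]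
    · change _ ≤ X.L (insert u (run X l).1) (solve X (insert u (run X l).1) (run X l).2)
      refine le_trans ?_ hg
      have hβ := h.β_ge
      have h2 : (X.β - 1) / 4 * ((X.t : ℝ) / 1024) ≤
          (X.β - 1) / 4 * X.uload (run X l).1 (run X l).2 u :=
        mul_le_mul_of_nonneg_left hul (by linarith)
      have h3 := I0.gain
      rw [List.length_cons]
      push_cast
      nlinarith

/-- bound of the number of steps of a stage -/
theorem length_le (h1 : Stmt_S1) (h5 : Stmt_S5) (h6 : Stmt_S6) (h11 : Stmt_S11)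
    {X : Ctx P I} {J σ Y : ℝ} (h : X.Hyp J σ Y) (l : List I)
    (hl : Valid (fun C l => cand X C l) X.C l) :
    (l.length : ℝ) ≤ 8192 * X.V.card * (X.k + 1) * Real.log X.β / ((X.β - 1) * X.t) := by
  have I0 := run_inv h1 h5 h6 h11 h l hl
  have hL := (h11 P I X J σ Y h _ _ I0.bd I0.stat).2
  have hgain := I0.gain
  have hβ := h.β_ge
  have ht := t_pos' h
  have hpos : 0 < (X.β - 1) * X.t := by apply mul_pos <;> linarith
  rw [le_div_iff₀ hpos]
  have hbig := h.β_big
  rw [I0.T_card] at hL
  have hlen : (0 : ℝ) ≤ l.length := Nat.cast_nonneg _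
  have e1 : X.K / 2 * (l.length * Y ^ 2) ≤ (X.β - 1) * X.t / 8192 * l.length := by
    have : 4096 * X.K * Y ^ 2 * l.length ≤ (X.β - 1) * X.t * l.length :=
      mul_le_mul_of_nonneg_right hbig hlen
    nlinarith
  have e2 : (X.β - 1) * X.t / 4096 * l.length ≤
      X.V.card * ((X.k + 1) * Real.log X.β) + (X.β - 1) * X.t / 8192 * l.length := by
    linarith
  nlinarith

end EpsNet.AT

namespace EpsNet

open Ctx EpsNet.AT0 EpsNet.AT

theorem stmt_AT (h1 : Stmt_S1) (h5 : Stmt_S5) (h6 : Stmt_S6) (h8 : Stmt_S8) (h9 : Stmt_S9)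
    (h10 : Stmt_S10) (h11 : Stmt_S11) : Stmt_AT := by
  intro P I _ _ X J σ Y M h hβ2 hM
  have ht := t_pos' h
  have hK := K_pos h
  have hY := h.Y_pos
  have hβ := h.β_ge
  have hV : (1 : ℝ) ≤ X.V.card := by exact_mod_cast h.V_pos
  have hlog : 0 ≤ Real.log X.β := Real.log_nonneg (by linarith)
  have hk : (0 : ℝ) ≤ X.k := Nat.cast_nonneg _
  set b : ℝ := 8192 * X.V.card * (X.k + 1) * Real.log X.β / ((X.β - 1) * X.t) with hbdef
  set h0 : ℝ := X.t * (X.V.card : ℝ) / (1024 * X.K * Y) with h0def
  have hb : 0 ≤ b := by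
    apply div_nonneg
    · positivity
    · apply mul_nonneg <;> linarith
  have hh : 0 < h0 := by
    apply div_pos
    · apply mul_pos <;> linarith
    · apply mul_pos (by linarith) (by linarith)
  have hM' : (b + 1) * (X.V.card / (16 * h0) + 2) ≤ M := by
    have e : (X.V.card : ℝ) / (16 * h0) = 64 * X.K * Y / X.t := by
      rw [h0def]
      have h1 : (X.V.card : ℝ) ≠ 0 := by linarith
      have h2 : (X.t : ℝ) ≠ 0 := by linarith
      have h3 : X.K ≠ 0 := by linarith
      have h4 : Y ≠ 0 := by linarith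
      field_simp
      ring
    rw [e]; exact hM
  obtain ⟨F, hF1, hF2, hF3⟩ := AT0.main X.V (fun C l => cand X C l) b h0 hb hh M hM'
  refine ⟨F, hF1, hF2, fun A hA => ?_⟩
  rcases hF3 A hA with hC | ⟨C, l, hCV, hCbig, hval, hmem, hnot⟩
  · exact Or.inl hC
  · refine Or.inr (fun W B hWA hWB => ?_)
    have hX : (withC X C).Hyp J σ Y := hyp_withC h hCV hCbig
    have hval' : Valid (fun C' l => cand (withC X C) C' l) (withC X C).C l := hval
    have I0 := run_inv h1 h5 h6 h11 hX l hval'
    have hlen := length_le h1 h5 h6 h11 hX l hval'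
    have hlen' : (l.length : ℝ) ≤ b := hlen
    have hsub : cand X C l ⊆ C := by
      intro u hu
      have hu' : u ∈ (withC X C).H (run (withC X C) l).1 (run (withC X C) l).2 := hu
      rw [Ctx.H, Finset.mem_filter, Finset.mem_sdiff] at hu'
      exact hu'.1.1
    have hsmall : ((cand X C l).card : ℝ) < h0 := by
      by_contra hcon
      exact hnot ⟨hlen', not_lt.1 hcon, hsub⟩
    have hTcard : 1024 * ((withC X C).t : ℝ) * Y * ((run (withC X C) l).1.card : ℝ) ≤
        (withC X C).V.card := by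
      rw [I0.T_card]
      change 1024 * (X.t : ℝ) * Y * (l.length : ℝ) ≤ X.V.card
      have hpos : 0 < (X.β - 1) * X.t := by apply mul_pos <;> linarith
      have e1 : 1024 * (X.t : ℝ) * Y * (l.length : ℝ) ≤ 1024 * X.t * Y * b :=
        mul_le_mul_of_nonneg_left hlen' (by positivity)
      refine e1.trans ?_
      rw [hbdef, mul_div_assoc', div_le_iff₀ hpos]
      have e2 : 8192 * ((X.k : ℝ) + 1) * Real.log X.β * 1024 * Y * (X.t * X.V.card) ≤
          (X.β - 1) * (X.t * X.V.card) :=
        mul_le_mul_of_nonneg_right hβ2 (by positivity)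
      nlinarith
    have hmass := h8 P I (withC X C) J σ Y hX _ _ I0.T_sub I0.bd I0.stat hTcard
    have hr : ((withC X C).V.card : ℝ) / 128 ≤
        (withC X C).rmass (run (withC X C) l).1 (run (withC X C) l).2 := by
      by_contra hcon
      have := h9 P I (withC X C) J σ Y hX _ _ I0.bd I0.stat hmass (not_le.1 hcon)
      exact absurd hsmall (not_lt.2 this)
    have hTA : (run (withC X C) l).1 ⊆ A := by
      rw [I0.T_eq]
      intro u hu
      exact hmem u (List.mem_toFinset.1 hu)
    exact h10 P I (withC X C) J σ Y hX _ _ I0.bd I0.stat hr A W B hTA hWA hWB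

end EpsNet
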