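import Mathlib

/-!
MP_ef7f46_co: lines spanned by a finite set of points of the plane `ℝ × ℝ`, and `ε`-nets.
-/

set_option autoImplicit false
open Classical

namespace EpsNet.Elem

/-- The line through two distinct points of the plane `ℝ × ℝ`. -/
def lineThrough (p q : ℝ × ℝ) : Set (ℝ × ℝ) :=
  {x | (x.1 - p.1) * (q.2 - p.2) = (x.2 - p.2) * (q.1 - p.1)}

/-- The finite set of lines passing through at least two points of `P`. -/
noncomputable def spannedLines (P : Finset (ℝ × ℝ)) : Finset (Set (ℝ × ℝ)) :=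
  P.offDiag.image (fun a => lineThrough a.1 a.2)

/-- `N` is an `ε`-net for `(P, w)`: a set of spanned lines such that every point `p ∈ P` whose
spanned lines have total weight at least `ε` times the total weight lies on a line of `N`. -/
def IsEpsNet (ε : ℝ) (P : Finset (ℝ × ℝ)) (w : Set (ℝ × ℝ) → ℝ) (N : Finset (Set (ℝ × ℝ))) :
    Prop :=
  N ⊆ spannedLines P ∧
    ∀ p ∈ P, ε * (∑ l ∈ spannedLines P, w l) ≤ (∑ l ∈ spannedLines P with p ∈ l, w l) →
      ∃ l ∈ N, p ∈ l

end EpsNet.Elem
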