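import Pool.Agent.Work.MP_ef7f46_co.Basic

/-!
MP_ef7f46_co: Main, from AT, PB, Geo.
-/

set_option autoImplicit false
open Classical

namespace EpsNet.MainH84

open Ctx

/-- filtered sums over the subtype of a finset -/
theorem sum_sub {α : Type} (I : Finset α) (Q : α → Prop) (f : α → ℝ) :
    ∑ l ∈ Finset.univ.filter (fun l : {l // l ∈ I} => Q l.1), f l.1 =
      ∑ l ∈ I.filter Q, f l := by
  rw [Finset.sum_filter, Finset.sum_filter]
  exact Finset.sum_coe_sort I (fun l => if Q l then f l else 0)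

theorem card_sub {α : Type} (I : Finset α) (Q : α → Prop) :
    (Finset.univ.filter (fun l : {l // l ∈ I} => Q l.1)).card = (I.filter Q).card := by
  have := sum_sub I Q (fun _ => 1)
  simp only [Finset.sum_const, nsmul_eq_mul, mul_one] at this
  exact_mod_cast this

theorem card_Pt (t s : ℕ) : Fintype.card (Pt t s) = s * (s * ((3 * t * s) * (3 * t * s))) := by
  simp [Pt]

/-- the data delivered by the planar configuration -/
structure Data (k s : ℕ) where
  e : Pt (4 * k) s → Plane
  I : Finset (AffineSubspace ℝ Plane)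
  V : Finset (AffineSubspace ℝ Plane)
  inj : Function.Injective e
  sub : V ⊆ I
  cardV : V.card = NN k s
  span : ∀ l ∈ I, ∃ p q, p ≠ q ∧ l = affineSpan ℝ {p, q}
  main : ∀ x, (V.filter (fun l => e x ∈ l)).card = 4 * k
  lin : ∀ l ∈ I, ∀ l' ∈ I, l ≠ l' → ∀ x y, e x ∈ l → e x ∈ l' → e y ∈ l → e y ∈ l' → x = y
  ptsV : ∀ v ∈ V, (Finset.univ.filter (fun x => e x ∈ v)).card ≤ s ^ 2
  sig : ∀ x, ∑ l ∈ I.filter (fun l => e x ∈ l),
      ((Finset.univ.filter (fun y => e y ∈ l)).card : ℝ) ≤
        600 * (4 * k) ^ 2 * (1 + Real.log s) * (s : ℝ) ^ 2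
  inc : ∀ x, ((I.filter (fun l => e x ∈ l)).card : ℝ) ≤
    600 * (4 * k) ^ 2 * (1 + Real.log s) * s
  out : ∀ p q : Plane, p ≠ q → affineSpan ℝ {p, q} ∉ I →
      (Finset.univ.filter (fun x => e x ∈ affineSpan ℝ {p, q})).card ≤ s

/-- the context of the set `U` of excluded lines -/
noncomputable def ctx {k s : ℕ} (d : Data k s) (β K : ℝ) (U : Finset {l // l ∈ d.I}) :
    Ctx (Pt (4 * k) s) {l // l ∈ d.I} where
  inc := fun x => Finset.univ.filter (fun l => d.e x ∈ l.1)
  V := Finset.univ.filter (fun l => l.1 ∈ d.V)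
  t := 4 * k
  r := s ^ 2
  k := k
  β := β
  K := K
  E := Finset.univ.filter (fun x => ∀ l ∈ U, d.e x ∉ l.1)
  C := Finset.univ.filter (fun l => l.1 ∈ d.V)

theorem cardV' {k s : ℕ} (d : Data k s) :
    (Finset.univ.filter (fun l : {l // l ∈ d.I} => l.1 ∈ d.V)).card = NN k s := by
  have h1 := card_sub d.I (fun l => l ∈ d.V)
  have h2 : (d.I.filter (fun l => l ∈ d.V)).card = NN k s := by
    rw [← d.cardV]
    congr 1
    ext l
    rw [Finset.mem_filter]
    exact ⟨fun h => h.2, fun h => ⟨d.sub h, h⟩⟩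
  refine Eq.trans ?_ h2
  convert h1

theorem hyp_ctx {k s D x M : ℕ} {β K Y : ℝ} (hp : Params k s D x M β K Y) (d : Data k s)
    (U : Finset {l // l ∈ d.I})
    (hU : U ⊆ Finset.univ.filter (fun l : {l // l ∈ d.I} => l.1 ∈ d.V)) (hUx : U.card ≤ x) :
    (ctx d β K U).Hyp (600 * (4 * k) ^ 2 * (1 + Real.log s) * s)
      (600 * (4 * k) ^ 2 * (1 + Real.log s)) Y := by
  have hk : (1 : ℝ) ≤ k := by exact_mod_cast hp.k1
  have hs : (1 : ℝ) ≤ s := by exact_mod_cast hp.s1
  have hlog : 0 ≤ Real.log s := Real.log_nonneg hs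
  have hσ : (1 : ℝ) ≤ 600 * (4 * k) ^ 2 * (1 + Real.log s) := by
    have h1 : (1 : ℝ) ≤ (4 * k) ^ 2 := by nlinarith
    nlinarith
  have hpts : ∀ i : {l // l ∈ d.I}, (ctx d β K U).pts i =
      Finset.univ.filter (fun x => d.e x ∈ i.1) := by
    intro i
    ext x
    simp [Ctx.pts, ctx]
  have hcardP : Fintype.card (Pt (4 * k) s) = 144 * k ^ 2 * s ^ 2 * s ^ 2 := by
    rw [card_Pt]; ring
  refine
    { main_card := ?_, lin := ?_, pts_le := ?_, sig := ?_, inc_le := ?_, many := ?_, half := ?_,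
      C_sub := subset_rfl, C_big := ?_, r_pos := ?_, V_pos := ?_, k_pos := hp.k1,
      t_ge := le_rfl, J_pos := ?_, σ_pos := hσ, β_ge := hp.β2, K_ge := ?_, K_sig := ?_,
      Y_pos := hp.Y1, Y_ge := ?_, r_ge := ?_, β_big := ?_ }
  · intro y
    have e1 : ∀ F : Finset {l // l ∈ d.I}, (∀ l, l ∈ F ↔ (l.1 ∈ d.V ∧ d.e y ∈ l.1)) →
        F.card = 4 * k := by
      intro F hF
      have e2 : F = Finset.univ.filter (fun l : {l // l ∈ d.I} => l.1 ∈ d.V ∧ d.e y ∈ l.1) := by
        ext l
        rw [hF, Finset.mem_filter]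
        simp
      have h1 := card_sub d.I (fun l => l ∈ d.V ∧ d.e y ∈ l)
      have h2 : (d.I.filter (fun l => l ∈ d.V ∧ d.e y ∈ l)).card = 4 * k := by
        rw [← d.main y]
        congr 1
        ext l
        simp only [Finset.mem_filter]
        exact ⟨fun h => h.2, fun h => ⟨d.sub h.1, h⟩⟩
      rw [e2]
      refine Eq.trans ?_ h2
      convert h1
    apply e1
    intro l
    simp only [ctx, Finset.mem_inter, Finset.mem_filter, Finset.mem_univ, true_and]
    exact and_comm
  · intro i j hij _ x y hx1 hx2 hy1 hy2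
    simp only [ctx, Finset.mem_filter, Finset.mem_univ, true_and] at hx1 hx2 hy1 hy2
    exact d.lin i.1 i.2 j.1 j.2 (fun h => hij (Subtype.ext h)) x y hx1 hx2 hy1 hy2
  · intro v hv
    rw [hpts]
    simp only [ctx, Finset.mem_filter, Finset.mem_univ, true_and] at hv
    exact d.ptsV v.1 hv
  · intro y
    have e1 : ∑ i ∈ (ctx d β K U).inc y, (((ctx d β K U).pts i).card : ℝ) =
        ∑ l ∈ d.I.filter (fun l => d.e y ∈ l),
          ((Finset.univ.filter (fun z => d.e z ∈ l)).card : ℝ) := by
      rw [← sum_sub d.I (fun l => d.e y ∈ l)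
        (fun l => ((Finset.univ.filter (fun z => d.e z ∈ l)).card : ℝ))]
      apply Finset.sum_congr rfl
      intro i _
      rw [hpts]
    rw [e1]
    refine (d.sig y).trans (le_of_eq ?_)
    simp [ctx]
  · intro y
    have e1 : ((ctx d β K U).inc y).card = (d.I.filter (fun l => d.e y ∈ l)).card :=
      card_sub d.I (fun l => d.e y ∈ l)
    rw [e1]
    exact d.inc y
  · change s ^ 2 * (Finset.univ.filter (fun l : {l // l ∈ d.I} => l.1 ∈ d.V)).card ≤
      2 * (4 * k) * Fintype.card (Pt (4 * k) s)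
    rw [cardV', hcardP, NN]
    nlinarith [Nat.zero_le (k ^ 3 * s ^ 4)]
  · have hcompl : (Finset.univ.filter (fun y => ¬ ∀ l ∈ U, d.e y ∉ l.1)).card ≤ x * s ^ 2 := by
      have hsub : Finset.univ.filter (fun y => ¬ ∀ l ∈ U, d.e y ∉ l.1) ⊆
          U.biUnion (fun l => Finset.univ.filter (fun y => d.e y ∈ l.1)) := by
        intro y hy
        rw [Finset.mem_filter] at hy
        have hy2 := hy.2
        push Not at hy2
        obtain ⟨l, hl, hyl⟩ := hy2
        rw [Finset.mem_biUnion]
        exact ⟨l, hl, by simp [hyl]⟩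
      refine (Finset.card_le_card hsub).trans ?_
      refine (Finset.card_biUnion_le_card_mul U _ (s ^ 2) ?_).trans
        (Nat.mul_le_mul_right _ hUx)
      intro l hl
      have := hU hl
      rw [Finset.mem_filter] at this
      exact d.ptsV l.1 this.2
    have hadd := Finset.card_filter_add_card_filter_not (s := (Finset.univ : Finset (Pt (4 * k) s)))
      (fun y => ∀ l ∈ U, d.e y ∉ l.1)
    rw [Finset.card_univ] at hadd
    change Fintype.card (Pt (4 * k) s) ≤
      2 * (Finset.univ.filter (fun y => ∀ l ∈ U, d.e y ∉ l.1)).card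
    have h1 : x * s ^ 2 ≤ 72 * k ^ 2 * s ^ 2 * s ^ 2 := Nat.mul_le_mul_right _ hp.x_le'
    have h2 : 144 * k ^ 2 * s ^ 2 * s ^ 2 = 2 * (72 * k ^ 2 * s ^ 2 * s ^ 2) := by ring
    omega
  · change 15 * (Finset.univ.filter (fun l : {l // l ∈ d.I} => l.1 ∈ d.V)).card ≤
      16 * (Finset.univ.filter (fun l : {l // l ∈ d.I} => l.1 ∈ d.V)).card
    omega
  · change 1 ≤ s ^ 2
    exact Nat.one_le_pow _ _ hp.s1
  · change 1 ≤ (Finset.univ.filter (fun l : {l // l ∈ d.I} => l.1 ∈ d.V)).card
    rw [cardV', NN]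
    have h1 := hp.k1
    have h2 := hp.s1
    have : 0 < 4 * k * (4 * (4 * k) * s) ^ 2 := by positivity
    omega
  · nlinarith
  · change ((4 * k : ℕ) : ℝ) ≤ K
    push_cast
    exact hp.K_ge
  · change 1024 * ((4 * k : ℕ) : ℝ) * _ ≤ K
    push_cast
    exact hp.K_sig
  · change Real.log (16 * _ * ((4 * k : ℕ) : ℝ) * β ^ k) ≤ Y
    push_cast
    exact hp.Y_ge
  · change 128 * β ^ (k + 1) * Y * _ ≤ ((s ^ 2 : ℕ) : ℝ)
    push_cast
    exact hp.r_ge
  · change 4096 * K * Y ^ 2 ≤ (β - 1) * ((4 * k : ℕ) : ℝ)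
    push_cast
    exact hp.β_big

theorem main_data (hAT : Stmt_AT) (hPB : Stmt_PB) {k s D x M : ℕ} {β K Y : ℝ}
    (hp : Params k s D x M β K Y) (d : Data k s) :
    ∃ (S : Finset Plane) (w : AffineSubspace ℝ Plane → ℝ), 2 ≤ S.card ∧
    (∀ l ∈ spanned S, 0 < w l) ∧
    ∀ ε : ℝ, 0 < ε → ε * (3 * NN k s) ≤ k * D → ∀ N, IsNet ε S w N → x < N.card := by
  have hk : (1 : ℝ) ≤ k := by exact_mod_cast hp.k1
  have hs : (1 : ℝ) ≤ s := by exact_mod_cast hp.s1
  have hD : (2 : ℝ) ≤ D := by exact_mod_cast hp.D2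
  have hK : (0 : ℝ) < K := by linarith [hp.K_ge]
  have hY := hp.Y1
  have hβ := hp.β2
  set V' : Finset {l // l ∈ d.I} := Finset.univ.filter (fun l => l.1 ∈ d.V) with hV'
  have hcV : V'.card = NN k s := cardV' d
  have hATU : ∀ U : Finset {l // l ∈ d.I}, U ⊆ V' → U.card ≤ x →
      ∃ F : Finset (Finset {l // l ∈ d.I}), F.card ≤ (V'.card + 2) ^ M ∧
        (∀ C ∈ F, C ⊆ V' ∧ 16 * C.card ≤ 15 * V'.card) ∧
        ∀ A ⊆ V', (∃ C ∈ F, A ⊆ C) ∨
          ∀ (W : Finset {l // l ∈ d.I}) (B : Finset (Pt (4 * k) s)), Disjoint W A →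
            (W.card : ℝ) * (1 + K * Y) + 16 * B.card * (4 * k) * β ^ k / (s : ℝ) ^ 2 ≤
              (NN k s : ℝ) / 256 →
            ∃ y : Pt (4 * k) s, (∀ l ∈ U, d.e y ∉ l.1) ∧ y ∉ B ∧
              (∀ l : {l // l ∈ d.I}, d.e y ∈ l.1 → l ∉ W) ∧
              k ≤ (A.filter (fun l : {l // l ∈ d.I} => d.e y ∈ l.1)).card := by
    intro U hU hUx
    have hyp := hyp_ctx hp d U hU hUx
    obtain ⟨F, hF1, hF2, hF3⟩ := hAT _ _ (ctx d β K U) _ _ Y M hyp hp.β_big2 (by
      change (8192 * (V'.card : ℝ) * (k + 1) * Real.log β / ((β - 1) * ((4 * k : ℕ) : ℝ)) + 1) *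
        (64 * K * Y / ((4 * k : ℕ) : ℝ) + 2) ≤ M
      rw [hcV]
      push_cast
      exact hp.M_ge)
    refine ⟨F, hF1, hF2, fun A hA => ?_⟩
    rcases hF3 A hA with h | h
    · exact Or.inl h
    · refine Or.inr (fun W B hWA hWB => ?_)
      obtain ⟨y, hyE, hyB, hyW, hyk⟩ := h W B hWA (by
        change (W.card : ℝ) * (1 + K * Y) + 16 * B.card * ((4 * k : ℕ) : ℝ) * β ^ k /
          ((s ^ 2 : ℕ) : ℝ) ≤ (V'.card : ℝ) / 256
        rw [hcV]
        push_cast
        exact hWB)
      refine ⟨y, ?_, hyB, ?_, le_of_le_of_eq hyk ?_⟩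
      · simp only [ctx, Finset.mem_filter, Finset.mem_univ, true_and] at hyE
        exact hyE
      · intro l hl hlW
        have hlinc : l ∈ (ctx d β K U).inc y := by
          simp only [ctx, Finset.mem_filter, Finset.mem_univ, true_and]
          exact hl
        exact (Finset.disjoint_left.1 hyW hlinc) hlW
      · congr 1
        ext l
        simp only [ctx, Finset.mem_inter, Finset.mem_filter, Finset.mem_univ, true_and]
        exact and_comm
  choose! fam hfam using hATU
  obtain ⟨A, hAV, hAc, hAU⟩ := hPB {l // l ∈ d.I} V' D x M fam hp.D2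
    (by rw [hcV]; exact hp.x_le) (by rw [hcV]; exact hp.N_ge)
    (by rw [hcV]; exact hp.M_le)
    (fun U hU hUx => ⟨(hfam U hU hUx).1, (hfam U hU hUx).2.1⟩)
  choose! p q hpq using d.span
  set S : Finset Plane := Finset.univ.image d.e ∪ d.V.image p ∪ d.V.image q with hS
  set A0 : Finset (AffineSubspace ℝ Plane) := A.image Subtype.val with hA0
  set δ : ℝ := 1 / ((spanned S).card + 1) with hδ
  have hδ0 : 0 < δ := by positivity
  set w : AffineSubspace ℝ Plane → ℝ := fun l => if l ∈ A0 then 1 else δ with hw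
  have hwpos : ∀ l, 0 < w l := by
    intro l
    simp only [hw]
    split_ifs
    · norm_num
    · exact hδ0
  have hA0V : ∀ l ∈ A0, l ∈ d.V := by
    intro l hl
    rw [hA0, Finset.mem_image] at hl
    obtain ⟨a, ha, rfl⟩ := hl
    have := hAV ha
    rw [hV', Finset.mem_filter] at this
    exact this.2
  have hVspan : ∀ l ∈ d.V, l ∈ spanned S := by
    intro l hl
    have h1 := hpq l (d.sub hl)
    rw [spanned, Finset.mem_image]
    refine ⟨(p l, q l), ?_, h1.2.symm⟩
    rw [Finset.mem_offDiag]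
    refine ⟨?_, ?_, h1.1⟩
    · rw [hS]
      exact Finset.mem_union_left _ (Finset.mem_union_right _ (Finset.mem_image_of_mem p hl))
    · rw [hS]
      exact Finset.mem_union_right _ (Finset.mem_image_of_mem q hl)
  have hScard : 2 ≤ S.card := by
    have h1 : (Finset.univ.image d.e).card ≤ S.card := by
      apply Finset.card_le_card
      intro z hz
      rw [hS]
      exact Finset.mem_union_left _ (Finset.mem_union_left _ hz)
    rw [Finset.card_image_of_injective _ d.inj, Finset.card_univ, card_Pt] at h1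
    have h2 : 0 < k := hp.k1
    have h3 : 0 < s := hp.s1
    have h4 : 2 ≤ s * (s * ((3 * (4 * k) * s) * (3 * (4 * k) * s))) := by
      have : 0 < k ^ 2 * s ^ 4 := by positivity
      nlinarith
    omega
  refine ⟨S, w, hScard, fun l _ => hwpos l, ?_⟩
  intro ε hε hεk N hN
  obtain ⟨hNsub, hNnet⟩ := hN
  by_contra hcon
  have hNx : N.card ≤ x := not_lt.1 hcon
  -- the three parts of the net
  set U : Finset {l // l ∈ d.I} := A.filter (fun l => l.1 ∈ N) with hUdef
  set W : Finset {l // l ∈ d.I} :=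
    Finset.univ.filter (fun l : {l // l ∈ d.I} => l.1 ∈ N ∧ l ∉ A) with hWdef
  set B : Finset (Pt (4 * k) s) :=
    (N.filter (fun l => l ∉ d.I)).biUnion (fun l => Finset.univ.filter (fun y => d.e y ∈ l))
    with hBdef
  have hUA : U ⊆ A := Finset.filter_subset _ _
  have hUc : U.card ≤ x := by
    refine le_trans ?_ hNx
    have : (U.image Subtype.val).card ≤ N.card := by
      apply Finset.card_le_card
      intro l hl
      rw [Finset.mem_image] at hl
      obtain ⟨a, ha, rfl⟩ := hl
      rw [hUdef, Finset.mem_filter] at ha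
      exact ha.2
    rwa [Finset.card_image_of_injective _ Subtype.val_injective] at this
  have hWc : W.card ≤ x := by
    refine le_trans ?_ hNx
    have : (W.image Subtype.val).card ≤ N.card := by
      apply Finset.card_le_card
      intro l hl
      rw [Finset.mem_image] at hl
      obtain ⟨a, ha, rfl⟩ := hl
      rw [hWdef, Finset.mem_filter] at ha
      exact ha.2.1
    rwa [Finset.card_image_of_injective _ Subtype.val_injective] at this
  have hBc : B.card ≤ x * s := by
    refine (Finset.card_biUnion_le_card_mul _ _ s ?_).trans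
      (Nat.mul_le_mul_right _ ((Finset.card_filter_le _ _).trans hNx))
    intro l hl
    rw [Finset.mem_filter] at hl
    have hl1 := hNsub hl.1
    rw [spanned, Finset.mem_image] at hl1
    obtain ⟨⟨a, b⟩, hab, rfl⟩ := hl1
    rw [Finset.mem_offDiag] at hab
    exact d.out a b hab.2.2 hl.2
  have hUV : U ⊆ V' := hUA.trans hAV
  rcases (hfam U hUV hUc).2.2 (A \ U) (Finset.sdiff_subset.trans hAV) with ⟨C, hC, hAC⟩ | h
  · refine hAU U hUA hUc C hC (fun l hl => hAC (Finset.mem_sdiff.2 ?_))
    exact (@Finset.mem_sdiff _ (fun a b => propDecidable (a = b)) A U l).1 hl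
  · obtain ⟨y, hyU, hyB, hyW, hyk⟩ := h W B (by
      rw [Finset.disjoint_left]
      intro l hl hl2
      rw [hWdef, Finset.mem_filter] at hl
      rw [Finset.mem_sdiff] at hl2
      exact hl.2.2 hl2.1) (by
      refine le_trans ?_ hp.X_ok
      have h1 : (W.card : ℝ) ≤ x := by exact_mod_cast hWc
      have h2 : (B.card : ℝ) ≤ x * s := by exact_mod_cast hBc
      have h3 : (0 : ℝ) ≤ 1 + K * Y := by positivity
      have h4 : (W.card : ℝ) * (1 + K * Y) ≤ x * (1 + K * Y) :=
        mul_le_mul_of_nonneg_right h1 h3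
      have h5 : 16 * (B.card : ℝ) * (4 * k) * β ^ k / (s : ℝ) ^ 2 ≤
          16 * (x * s) * (4 * k) * β ^ k / (s : ℝ) ^ 2 := by
        apply div_le_div_of_nonneg_right _ (by positivity)
        have : (0 : ℝ) ≤ (4 * k) * β ^ k := by positivity
        nlinarith
      linarith)
    -- `e y` is heavy
    have heavy : ε * (∑ l ∈ spanned S, w l) ≤
        ∑ l ∈ (spanned S).filter (fun l => d.e y ∈ l), w l := by
      have hNN : (0 : ℝ) ≤ NN k s := Nat.cast_nonneg _
      have hW1 : ∑ l ∈ spanned S, w l ≤ A0.card + 1 := by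
        have e1 : ∀ l ∈ spanned S, w l ≤ (if l ∈ A0 then 1 else 0) + δ := by
          intro l _
          simp only [hw]
          split_ifs <;> linarith
        refine (Finset.sum_le_sum e1).trans ?_
        rw [Finset.sum_add_distrib, ← Finset.sum_filter, Finset.sum_const, Finset.sum_const,
          nsmul_eq_mul, nsmul_eq_mul, mul_one]
        have e2 : (((spanned S).filter (fun l => l ∈ A0)).card : ℝ) ≤ A0.card := by
          exact_mod_cast Finset.card_le_card (fun l hl => (Finset.mem_filter.1 hl).2)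
        have e3 : ((spanned S).card : ℝ) * δ ≤ 1 := by
          rw [hδ, mul_one_div, div_le_one (by positivity)]
          linarith
        linarith
      have hA0c : A0.card = A.card := Finset.card_image_of_injective _ Subtype.val_injective
      have hW2 : (D : ℝ) * (∑ l ∈ spanned S, w l) ≤ 3 * NN k s := by
        have e1 : (D : ℝ) * A.card ≤ 2 * NN k s := by
          rw [← hcV]; exact_mod_cast hAc
        have e2 : (D : ℝ) ≤ NN k s := by
          have : (40 : ℝ) * D ≤ NN k s := by exact_mod_cast hp.N_ge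
          linarith
        calc (D : ℝ) * (∑ l ∈ spanned S, w l) ≤ D * (A0.card + 1) :=
              mul_le_mul_of_nonneg_left hW1 (by linarith)
          _ = D * A.card + D := by rw [hA0c]; ring
          _ ≤ 3 * NN k s := by linarith
      have hW3 : ε * (∑ l ∈ spanned S, w l) ≤ k := by
        have e1 : (D : ℝ) * (ε * (∑ l ∈ spanned S, w l)) ≤ D * k := by
          calc (D : ℝ) * (ε * (∑ l ∈ spanned S, w l)) = ε * (D * (∑ l ∈ spanned S, w l)) := by
                ring
            _ ≤ ε * (3 * NN k s) := mul_le_mul_of_nonneg_left hW2 hε.le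
            _ ≤ k * D := hεk
            _ = D * k := mul_comm _ _
        exact le_of_mul_le_mul_left e1 (by linarith)
      refine hW3.trans ?_
      have hyk2 : k ≤ (((A \ U).filter (fun l : {l // l ∈ d.I} => d.e y ∈ l.1)).image
          Subtype.val).card := by
        rwa [Finset.card_image_of_injective _ Subtype.val_injective]
      have hsubs : ((A \ U).filter (fun l : {l // l ∈ d.I} => d.e y ∈ l.1)).image
          Subtype.val ⊆ (spanned S).filter (fun l => d.e y ∈ l) := by
        intro l hl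
        rw [Finset.mem_image] at hl
        obtain ⟨a, ha, rfl⟩ := hl
        rw [Finset.mem_filter, Finset.mem_sdiff] at ha
        rw [Finset.mem_filter]
        refine ⟨hVspan _ (hA0V _ ?_), ha.2⟩
        rw [hA0]
        exact Finset.mem_image_of_mem _ ha.1.1
      calc (k : ℝ) ≤ ((((A \ U).filter (fun l : {l // l ∈ d.I} => d.e y ∈ l.1)).image
            Subtype.val).card : ℝ) := by exact_mod_cast hyk2
        _ = ∑ l ∈ ((A \ U).filter (fun l : {l // l ∈ d.I} => d.e y ∈ l.1)).image
            Subtype.val, w l := by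
            rw [Finset.card_eq_sum_ones]
            push_cast
            apply Finset.sum_congr rfl
            intro l hl
            rw [Finset.mem_image] at hl
            obtain ⟨a, ha, rfl⟩ := hl
            rw [Finset.mem_filter, Finset.mem_sdiff] at ha
            have : (a : AffineSubspace ℝ Plane) ∈ A0 := by
              rw [hA0]
              exact Finset.mem_image_of_mem _ ha.1.1
            simp only [hw, this, if_true]
        _ ≤ ∑ l ∈ (spanned S).filter (fun l => d.e y ∈ l), w l :=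
            Finset.sum_le_sum_of_subset_of_nonneg hsubs (fun l _ _ => (hwpos l).le)
    have hyS : d.e y ∈ S := by
      rw [hS]
      exact Finset.mem_union_left _ (Finset.mem_union_left _
        (Finset.mem_image_of_mem _ (Finset.mem_univ y)))
    obtain ⟨l, hlN, hyl⟩ := hNnet (d.e y) hyS heavy
    by_cases hlI : l ∈ d.I
    · by_cases hlA : (⟨l, hlI⟩ : {l // l ∈ d.I}) ∈ A
      · refine hyU ⟨l, hlI⟩ ?_ hyl
        rw [hUdef, Finset.mem_filter]
        exact ⟨hlA, hlN⟩
      · refine hyW ⟨l, hlI⟩ hyl ?_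
        rw [hWdef, Finset.mem_filter]
        exact ⟨Finset.mem_univ _, hlN, hlA⟩
    · apply hyB
      rw [hBdef, Finset.mem_biUnion]
      refine ⟨l, ?_, ?_⟩
      · rw [Finset.mem_filter]; exact ⟨hlN, hlI⟩
      · rw [Finset.mem_filter]; exact ⟨Finset.mem_univ _, hyl⟩

end EpsNet.MainH84

namespace EpsNet

theorem stmt_Main (hAT : Stmt_AT) (hPB : Stmt_PB) (hGeo : Stmt_Geo) : Stmt_Main := by
  intro k s D x M β K Y hp
  have hk4 : 1 ≤ 4 * k := by have := hp.k1; omega
  obtain ⟨e, I, V, h1, h2, h3, h4, h5, h6, h7, h8, h9, h10⟩ := hGeo (4 * k) s hk4 hp.s1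
  refine MainH84.main_data hAT hPB hp
    { e := e, I := I, V := V, inj := h1, sub := h2, cardV := h3, span := h4, main := h5,
      lin := h6, ptsV := h7, sig := ?_, inc := ?_, out := h10 }
  · intro x
    have := h8 x
    push_cast at this
    exact this
  · intro x
    have := h9 x
    push_cast at this
    exact this

end EpsNet
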