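import Pool.Agent.Work.MP_ef7f46_co_helper23.S8
import Pool.Agent.Work.MP_ef7f46_co_helper23.S9
import Pool.Agent.Work.MP_ef7f46_co_helper23.S10
import Pool.Agent.Work.MP_ef7f46_co_helper23.S11
import Pool.Agent.Work.MP_ef7f46_co_helper26.S1
import Pool.Agent.Work.MP_ef7f46_co_helper26.S2
import Pool.Agent.Work.MP_ef7f46_co_helper26.S6
import Pool.Agent.Work.MP_ef7f46_co_helper59.Geo
import Pool.Agent.Work.MP_ef7f46_co_helper63.S5
import Pool.Agent.Work.MP_ef7f46_co_helper75.PB
import Pool.Agent.Work.MP_ef7f46_co_helper75.Asym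
import Pool.Agent.Work.MP_ef7f46_co_helper84.AT
import Pool.Agent.Work.MP_ef7f46_co_helper84.Main

/-!
MP_ef7f46_co: assembly of all blocks.
-/

set_option autoImplicit false
open Classical

namespace EpsNet

theorem at_holds : Stmt_AT :=
  stmt_AT stmt_S1 (stmt_S5 stmt_S2) stmt_S6 (stmt_S8 stmt_S7) stmt_S9 stmt_S10
    (stmt_S11 stmt_S2)

theorem final_holds : Stmt_Final :=
  final (stmt_Main at_holds stmt_PB stmt_Geo) stmt_Asym

end EpsNet
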