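import Pool.Agent.Work.MP_ef7f46_co_helper84.Fin
import Pool.Agent.Work.MP_ef7f46_co_helper84.Elem

/-!
MP_ef7f46_co: the final theorem for the plane `ℝ × ℝ`, with lines as sets of points.
-/

set_option autoImplicit false
open Classical

namespace EpsNet.Elem

/-- coordinates -/
def phi (x : Plane) : ℝ × ℝ := (x 0, x 1)

theorem phi_inj : Function.Injective phi := by
  intro x y h
  simp only [phi, Prod.mk.injEq] at h
  ext i
  fin_cases i
  · exact h.1
  · exact h.2

theorem phi_surj : Function.Surjective phi := by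
  intro z
  exact ⟨!₂[z.1, z.2], by simp [phi]⟩

/-- image of a line -/
def Phi (l : AffineSubspace ℝ Plane) : Set (ℝ × ℝ) := phi '' (l : Set Plane)

theorem Phi_inj : Function.Injective Phi := by
  intro l l' h
  apply SetLike.coe_injective
  exact Set.image_injective.2 phi_inj h

theorem mem_Phi {l : AffineSubspace ℝ Plane} {x : Plane} : phi x ∈ Phi l ↔ x ∈ l := by
  unfold Phi
  rw [phi_inj.mem_set_image]
  rfl

theorem Phi_span {p q : Plane} (h : p ≠ q) :
    Phi (affineSpan ℝ {p, q}) = lineThrough (phi p) (phi q) := by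
  ext z
  obtain ⟨x, rfl⟩ := phi_surj z
  rw [mem_Phi, mem_affineSpan_pair_iff_exists_lineMap_eq]
  simp only [lineThrough, phi, Set.mem_ofPred_eq]
  have key : ∀ r : ℝ, (AffineMap.lineMap p q r : Plane) = x ↔
      (p 0 + r * (q 0 - p 0) = x 0 ∧ p 1 + r * (q 1 - p 1) = x 1) := by
    intro r
    constructor
    · intro h
      constructor
      · rw [← h]; simp [AffineMap.lineMap_apply]; ring
      · rw [← h]; simp [AffineMap.lineMap_apply]; ring
    · rintro ⟨h1, h2⟩
      ext i
      fin_cases i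
      · simp only [Fin.zero_eta, Fin.isValue]
        rw [← h1]; simp [AffineMap.lineMap_apply]; ring
      · simp only [Fin.mk_one, Fin.isValue]
        rw [← h2]; simp [AffineMap.lineMap_apply]; ring
  constructor
  · rintro ⟨r, hr⟩
    obtain ⟨h1, h2⟩ := (key r).1 hr
    rw [← h1, ← h2]; ring
  · intro hz
    by_cases h0 : q 0 - p 0 = 0
    · have h1 : q 1 - p 1 ≠ 0 := by
        intro h1
        apply h
        ext i
        fin_cases i
        · simp only [Fin.zero_eta, Fin.isValue]; linarith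
        · simp only [Fin.mk_one, Fin.isValue]; linarith
      refine ⟨(x 1 - p 1) / (q 1 - p 1), (key _).2 ⟨?_, ?_⟩⟩
      · rw [h0, mul_zero] at hz ⊢
        have : x 0 - p 0 = 0 := by
          rcases mul_eq_zero.1 hz with h2 | h2
          · exact h2
          · exact absurd h2 h1
        linarith
      · rw [div_mul_cancel₀ _ h1]; ring
    · refine ⟨(x 0 - p 0) / (q 0 - p 0), (key _).2 ⟨?_, ?_⟩⟩
      · rw [div_mul_cancel₀ _ h0]; ring
      · rw [div_mul_eq_mul_div, hz, mul_div_assoc, div_self h0]; ring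

theorem spanned_image (S : Finset Plane) :
    spannedLines (S.image phi) = (spanned S).image Phi := by
  ext l
  constructor
  · intro hl
    rw [spannedLines, Finset.mem_image] at hl
    obtain ⟨⟨a, b⟩, hab, rfl⟩ := hl
    rw [Finset.mem_offDiag] at hab
    obtain ⟨ha, hb, hne⟩ := hab
    rw [Finset.mem_image] at ha hb
    obtain ⟨x, hx, hxa⟩ := ha
    obtain ⟨y, hy, hyb⟩ := hb
    simp only at hxa hyb hne
    subst hxa hyb
    have hxy : x ≠ y := fun h => hne (by rw [h])
    rw [Finset.mem_image]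
    refine ⟨affineSpan ℝ {x, y}, ?_, Phi_span hxy⟩
    rw [spanned, Finset.mem_image]
    exact ⟨(x, y), Finset.mem_offDiag.2 ⟨hx, hy, hxy⟩, rfl⟩
  · intro hl
    rw [Finset.mem_image] at hl
    obtain ⟨l', hl', rfl⟩ := hl
    rw [spanned, Finset.mem_image] at hl'
    obtain ⟨⟨x, y⟩, hxy, rfl⟩ := hl'
    rw [Finset.mem_offDiag] at hxy
    obtain ⟨hx, hy, hne⟩ := hxy
    rw [spannedLines, Finset.mem_image]
    refine ⟨(phi x, phi y), Finset.mem_offDiag.2 ⟨Finset.mem_image_of_mem _ hx,
      Finset.mem_image_of_mem _ hy, fun h => hne (phi_inj h)⟩, (Phi_span hne).symm⟩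

theorem final_elem :
    ∃ c : ℝ, 0 < c ∧ ∃ ε₀ : ℝ, 0 < ε₀ ∧ ε₀ < 1 / 16 ∧ ∀ ε : ℝ, 0 < ε → ε < ε₀ →
      ∃ (P : Finset (ℝ × ℝ)) (w : Set (ℝ × ℝ) → ℝ),
        2 ≤ P.card ∧ (∀ l ∈ spannedLines P, 0 < w l) ∧
        ∀ N : Finset (Set (ℝ × ℝ)), IsEpsNet ε P w N →
          c * (1 / ε) * Real.log (1 / ε) / Real.log (Real.log (1 / ε)) < (N.card : ℝ) := by
  obtain ⟨c, hc, ε₀, h0, h1, h⟩ := final_holds
  refine ⟨c, hc, ε₀, h0, h1, fun ε he he' => ?_⟩
  obtain ⟨S, w, hS, hw, hN⟩ := h ε he he'
  have hinv : ∀ l, Function.invFun Phi (Phi l) = l := Function.leftInverse_invFun Phi_inj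
  refine ⟨S.image phi, fun s => w (Function.invFun Phi s), ?_, ?_, ?_⟩
  · rwa [Finset.card_image_of_injective _ phi_inj]
  · intro l hl
    rw [spanned_image, Finset.mem_image] at hl
    obtain ⟨l', hl', rfl⟩ := hl
    simp only [hinv]
    exact hw l' hl'
  · intro N' hN'
    obtain ⟨hsub, hnet⟩ := hN'
    have htot : ∑ l ∈ spannedLines (S.image phi), w (Function.invFun Phi l) =
        ∑ l ∈ spanned S, w l := by
      rw [spanned_image, Finset.sum_image (fun a _ b _ hab => Phi_inj hab)]
      simp only [hinv]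
    have hfil : ∀ x : Plane, ∑ l ∈ spannedLines (S.image phi) with phi x ∈ l,
        w (Function.invFun Phi l) = ∑ l ∈ spanned S with x ∈ l, w l := by
      intro x
      rw [Finset.sum_filter, Finset.sum_filter, spanned_image,
        Finset.sum_image (fun a _ b _ hab => Phi_inj hab)]
      simp only [hinv, mem_Phi]
    have hcard : ((N'.image (Function.invFun Phi)).card : ℝ) ≤ N'.card := by
      exact_mod_cast Finset.card_image_le
    refine lt_of_lt_of_le (hN (N'.image (Function.invFun Phi)) ⟨?_, ?_⟩) hcard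
    · intro l hl
      rw [Finset.mem_image] at hl
      obtain ⟨s, hs, rfl⟩ := hl
      have := hsub hs
      rw [spanned_image, Finset.mem_image] at this
      obtain ⟨l', hl', rfl⟩ := this
      rw [hinv]; exact hl'
    · intro x hx hheavy
      obtain ⟨s, hs, hxs⟩ := hnet (phi x) (Finset.mem_image_of_mem _ hx) (by
        rw [htot, hfil]; exact hheavy)
      have := hsub hs
      rw [spanned_image, Finset.mem_image] at this
      obtain ⟨l', hl', rfl⟩ := this
      refine ⟨l', ?_, mem_Phi.1 hxs⟩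
      rw [Finset.mem_image]
      exact ⟨Phi l', hs, hinv l'⟩

end EpsNet.Elem
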